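import Mathlib
import Pool.Agent.H21.Airfoil

set_option autoImplicit false

namespace Pool.Agent.Results.MP_9404a8_an.Counter

/-- The class `S`: holomorphic, univalent on the unit disc, `f 0 = 0`, `f' 0 = 1`. -/
def InS (f : ℂ → ℂ) : Prop :=
  DifferentiableOn ℂ f (Metric.ball (0 : ℂ) 1) ∧ Set.InjOn f (Metric.ball (0 : ℂ) 1) ∧
    f 0 = 0 ∧ deriv f 0 = 1

/-- `F` is the holomorphic logarithm on the bidisc of
`(f z - f w)/(z - w) · z/f z · w/f w` with `F (0,0) = 0`. -/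
def IsLogKernel (f : ℂ → ℂ) (F : ℂ × ℂ → ℂ) : Prop :=
  DifferentiableOn ℂ F (Metric.ball (0 : ℂ) 1 ×ˢ Metric.ball (0 : ℂ) 1) ∧ F (0, 0) = 0 ∧
    ∀ z ∈ Metric.ball (0 : ℂ) 1, ∀ w ∈ Metric.ball (0 : ℂ) 1, z ≠ w → z ≠ 0 → w ≠ 0 →
      Complex.exp (F (z, w)) = (f z - f w) / (z - w) * (z / f z) * (w / f w)

/-- `∂^{p+q} F / ∂z^p ∂w^q` at the diagonal point `(z, z)`. -/
noncomputable def schwarzian (F : ℂ × ℂ → ℂ) (p q : ℕ) (z : ℂ) : ℂ :=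
  iteratedDeriv p (fun x => iteratedDeriv q (fun y => F (x, y)) z) z

theorem result :
    ∃ p q : ℕ, 1 ≤ p ∧ 1 ≤ q ∧ p ≠ q ∧ ∃ f : ℂ → ℂ, InS f ∧ ∃ F : ℂ × ℂ → ℂ, IsLogKernel f F ∧
      ∃ z ∈ Metric.ball (0 : ℂ) 1,
        ((p + q - 1).factorial : ℝ) < ‖schwarzian F p q z‖ * (1 - ‖z‖ ^ 2) ^ (p + q) := by
  open Pool.Agent.H21.Airfoil in
  refine ⟨1, 2, le_rfl, by norm_num, by norm_num, f, ⟨f_diff, f_inj, f_zero, f_deriv⟩, F,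
    ⟨F_diff, F_zero, fun z hz w hw h1 h2 h3 => F_exp hz hw h1 h2 h3⟩, z0, z0_mem, ?_⟩
  rw [schwarzian, Pool.Agent.H21.Airfoil.outer]
  simp [Pool.Agent.H21.Airfoil.z0]
  norm_num

end Pool.Agent.Results.MP_9404a8_an.Counter
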